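import Pool.Agent.N177.LP.Comp

/-!
# Companions with given initial terms
-/

set_option autoImplicit false

open IsLocalRing PowerSeries

namespace Pool.Agent.N177.LE

open Pool.Agent.N177.LP

/-- `α : Λ → O` and `β : Λ → O'` have the same initial terms at `t_1, …, t_m` with respect to the
isomorphism `e` of the residue fields: there are uniformizers `π`, `π'` such that
`α(t_i) = u_i π ^ (r_i)` and `β(t_i) = u'_i π' ^ (r_i)` with the same exponents `r_i` and with units
`u_i`, `u'_i` which have the same residue class. -/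
def SameInitialTerms {Λ : Type} [CommRing Λ] {m : ℕ} (t : Fin m → Λ) {L L' : LocalField}
    (e : L.k ≃+* L'.k) (α : Λ →+* L.O) (β : Λ →+* L'.O) : Prop :=
  ∃ (π : L.O) (π' : L'.O) (r : Fin m → ℕ) (u : Fin m → L.O) (u' : Fin m → L'.O),
    Irreducible π ∧ Irreducible π' ∧ ∀ i, IsUnit (u i) ∧ IsUnit (u' i) ∧
      α (t i) = u i * π ^ r i ∧ β (t i) = u' i * π' ^ r i ∧
      e (residue L.O (u i)) = residue L'.O (u' i)

/-- A companion of a point of a smooth scheme with a divisor with normal crossings: a point over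
`k[[X]]` with the same residue point and the same initial terms. -/
theorem exists_companion {Λ : Type} [CommRing Λ] {m : ℕ} {t : Fin m → Λ} (ht : IsSNC t)
    (L : LocalField) (α : Λ →+* L.O) (hα : ∀ i, α (t i) ≠ 0) :
    ∃ β : Λ →+* (laurent L.k).O, (∀ a, resEquiv L.k (residue L.O (α a)) = residue _ (β a)) ∧
      (∀ i, β (t i) ≠ 0) ∧ SameInitialTerms t (resEquiv L.k) α β := by
  classical
  obtain ⟨π, hπ⟩ := IsDiscreteValuationRing.exists_irreducible L.O
  have h1 : ∀ i, ∃ (r : ℕ) (u : L.O), IsUnit u ∧ α (t i) = u * π ^ r := by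
    intro i
    obtain ⟨r, hr⟩ := IsDiscreteValuationRing.associated_pow_irreducible (hα i) hπ
    obtain ⟨u, hu⟩ := hr.symm
    exact ⟨r, u, u.isUnit, by rw [← hu, mul_comm]⟩
  choose r u hu hr using h1
  let c : Fin m → L.k⟦X⟧ := fun i => C (residue L.O (u i)) * X ^ (r i)
  let g₁ : MvPolynomial (Fin m) ℤ →+* Λ := MvPolynomial.eval₂Hom (Int.castRingHom Λ) t
  let g₂ : MvPolynomial (Fin m) ℤ →+* L.k⟦X⟧ := MvPolynomial.eval₂Hom (Int.castRingHom _) c
  let _ : Algebra (MvPolynomial (Fin m) ℤ) Λ := g₁.toAlgebra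
  let _ : Algebra (MvPolynomial (Fin m) ℤ) L.k⟦X⟧ := g₂.toAlgebra
  have hsm : Algebra.Smooth (MvPolynomial (Fin m) ℤ) Λ := ht
  have hfs : Algebra.FormallySmooth (MvPolynomial (Fin m) ℤ) Λ := hsm.formallySmooth
  have hπ0 : residue L.O π = 0 := by
    rw [residue_eq_zero_iff, mem_maximalIdeal, mem_nonunits_iff]
    exact hπ.not_isUnit
  have hu0 : ∀ i, residue L.O (u i) ≠ 0 := by
    intro i
    rw [Ne, residue_eq_zero_iff, mem_maximalIdeal, mem_nonunits_iff, not_not]
    exact hu i
  have hcc : ∀ i, constantCoeff (c i) = residue L.O (α (t i)) := by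
    intro i
    simp only [c, map_mul, constantCoeff_C, map_pow, constantCoeff_X, hr, hπ0]
  have hcomp : (constantCoeff (R := L.k)).comp g₂ = ((residue L.O).comp α).comp g₁ := by
    apply MvPolynomial.ringHom_ext
    · intro a
      simp [g₁, g₂]
    · intro i
      simp only [RingHom.comp_apply, g₁, g₂, MvPolynomial.eval₂Hom_X']
      exact hcc i
  let cc : L.k →+* L.k⟦X⟧ ⧸ Ideal.span {(X : L.k⟦X⟧)} := (Ideal.Quotient.mk _).comp C
  have hccmk : ∀ g : L.k⟦X⟧, cc (constantCoeff g) = Ideal.Quotient.mk _ g := by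
    intro g
    change Ideal.Quotient.mk _ (C (constantCoeff g)) = _
    rw [Ideal.Quotient.eq, Ideal.mem_span_singleton, X_dvd_iff, map_sub, constantCoeff_C, sub_self]
  let f : Λ →ₐ[MvPolynomial (Fin m) ℤ] L.k⟦X⟧ ⧸ Ideal.span {(X : L.k⟦X⟧)} :=
    { toRingHom := cc.comp ((residue L.O).comp α)
      commutes' := by
        intro P
        change cc ((((residue L.O).comp α).comp g₁) P) = Ideal.Quotient.mk _ (g₂ P)
        rw [← hcomp]
        exact hccmk (g₂ P) }
  obtain ⟨β, hβ⟩ := Algebra.FormallySmooth.exists_mkₐ_comp_eq_of_isAdicComplete f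
  have hβt : ∀ i, β (t i) = c i := by
    intro i
    have h2 := β.commutes (MvPolynomial.X i)
    change β (g₁ (MvPolynomial.X i)) = g₂ (MvPolynomial.X i) at h2
    simpa [g₁, g₂] using h2
  have hβc : ∀ a, constantCoeff (β a) = residue L.O (α a) := by
    intro a
    have h2 := DFunLike.congr_fun hβ a
    change Ideal.Quotient.mk _ (β a) = Ideal.Quotient.mk _ (C (residue L.O (α a))) at h2
    rw [Ideal.Quotient.eq, Ideal.mem_span_singleton, X_dvd_iff, map_sub, constantCoeff_C,
      sub_eq_zero] at h2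
    exact h2
  have hCu : ∀ i, C (residue L.O (u i)) ≠ (0 : L.k⟦X⟧) := by
    intro i h
    apply hu0 i
    rw [← constantCoeff_C (residue L.O (u i)), h, map_zero]
  refine ⟨β.toRingHom, fun a => ?_, fun i => ?_, π, (X : L.k⟦X⟧), r, u,
    fun i => (C (residue L.O (u i)) : L.k⟦X⟧), hπ, X_irreducible, fun i => ⟨hu i, ?_, hr i, hβt i, ?_⟩⟩
  · rw [← hβc]
    exact resEquiv_constantCoeff _
  · change β (t i) ≠ 0
    rw [hβt]
    exact mul_ne_zero (hCu i) (pow_ne_zero _ X_ne_zero)
  · change IsUnit (C (residue L.O (u i)) : L.k⟦X⟧)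
    rw [isUnit_iff_constantCoeff, constantCoeff_C]
    exact isUnit_iff_ne_zero.2 (hu0 i)
  · have h3 := resEquiv_constantCoeff (k := L.k) (C (residue L.O (u i)))
    rw [constantCoeff_C] at h3
    exact h3

end Pool.Agent.N177.LE
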