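import Pool.Agent.N177.LE.Comp

/-!
# Local Euler factors of the fibres of a family
-/

set_option autoImplicit false

open CategoryTheory Limits AlgebraicGeometry IsLocalRing Module Polynomial

namespace Pool.Agent.N177.LE

open Pool.Agent.N177.LP

/-- The local Euler factors: for a prime number `ℓ`, a local field `L` with fraction field `K`, a
scheme `Y → Spec K` and `i ≥ 0` the polynomial `det (1 - F T | H^i(Y_{\bar K}, ℚ_ℓ)^I)` with
coefficients in `ℚ_ℓ`, where `I` is the inertia group and `F` the geometric Frobenius. It is only
used if `Y` is smooth and proper over `K` and `ℓ` is not the residue characteristic. -/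
structure EulerTheory where
  euler : ∀ (ℓ : ℕ) [Fact ℓ.Prime] (L : LocalField) (Y : Scheme.{0}),
    (Y ⟶ Spec (.of L.K)) → ℕ → ℚ_[ℓ][X]

namespace EulerTheory

variable (T : EulerTheory)

/-- The Euler factor of `H^i` of `Y` has coefficients in `ℤ` and it is the same polynomial for all
prime numbers `ℓ` different from the residue characteristic. -/
def Independent (L : LocalField) (Y : Scheme.{0}) (g : Y ⟶ Spec (.of L.K)) (i : ℕ) : Prop :=
  ∃ P : ℤ[X], ∀ (ℓ : ℕ) [Fact ℓ.Prime], ℓ ≠ L.p →
    T.euler ℓ L Y g i = P.map (Int.castRingHom ℚ_[ℓ])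

/-- **The theorem of Deligne, Terasoma, Lu and Zheng**: the Euler factors are integral and
independent of `ℓ` for all smooth proper schemes over local fields of positive characteristic. -/
def EqualCharacteristic : Prop :=
  ∀ (L : LocalField) (Y : Scheme.{0}) (g : Y ⟶ Spec (.of L.K)) (i : ℕ), Smooth g → IsProper g →
    ringChar L.K ≠ 0 → T.Independent L Y g i

/-- **Tame specialization** (Abhyankar's lemma, the purity of the branch locus and Grothendieck's
local monodromy theorem). Let `(t_1, …, t_m) : Spec Λ → 𝔸^m` be smooth, let `Spec U ⊆ Spec Λ` be the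
complement of the divisor with normal crossings `t_1 ⋯ t_m = 0`, let `f : X → S` be smooth and proper
and let `φ : Spec U → S` be a morphism.

There is a number `M ≠ 0` (divisible by the orders of the semisimple parts of the local monodromies
of `H^*(X ×_S Spec U ⊗ ℂ)` around the components of the divisor, which do not depend on `ℓ`) such
that, if the residue characteristic is not `ℓ` and does not divide `M`, the representation of the
tame Galois group of `K` on the cohomology of the fibre of `X ×_S Spec U` at a point
`α' : Spec K → Spec U` which extends to `α : Spec O → Spec Λ` depends only on the residue point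
`Spec k → Spec Λ` of `α` and on the initial terms of `α(t_1), …, α(t_m)`. In particular this holds for
the Euler factors. In fact, the pull-back of the sheaf `R^i f_* ℚ_ℓ` to the complement of the divisor
in the henselization of `Spec Λ` at the residue point is tamely ramified and it is given by a
representation of the tame fundamental group `(∏_{l ≠ p} ℤ_l(1))^m ⋊ Gal(\bar k / k)`; the
homomorphism of the tame Galois group `(∏_{l ≠ p} ℤ_l(1)) ⋊ Gal(\bar k / k)` of `K` to this group is
determined by the initial terms. -/
def TameSpecialization : Prop :=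
  ∀ (Λ : Type) [CommRing Λ] (m : ℕ) (t : Fin m → Λ), IsSNC t →
  ∀ (U : Type) [CommRing U] [Algebra Λ U] [IsLocalization.Away (∏ i, t i) U]
    (S X : Scheme.{0}) (f : X ⟶ S) (φ : Spec (.of U) ⟶ S), Smooth f → IsProper f →
    ∃ M : ℕ, M ≠ 0 ∧ ∀ (ℓ : ℕ) [Fact ℓ.Prime] (L L' : LocalField), ℓ ≠ L.p → ¬ L.p ∣ M →
      ∀ (e : L.k ≃+* L'.k) (α : Λ →+* L.O) (β : Λ →+* L'.O) (α' : U →+* L.K) (β' : U →+* L'.K),
        (∀ a, α' (algebraMap Λ U a) = algebraMap L.O L.K (α a)) →
        (∀ a, β' (algebraMap Λ U a) = algebraMap L'.O L'.K (β a)) →
        (∀ a, e (residue L.O (α a)) = residue L'.O (β a)) → SameInitialTerms t e α β →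
        ∀ i, T.euler ℓ L _ (pullback.snd f (Spec.map (CommRingCat.ofHom α') ≫ φ)) i =
          T.euler ℓ L' _ (pullback.snd f (Spec.map (CommRingCat.ofHom β') ≫ φ)) i

end EulerTheory

end Pool.Agent.N177.LE
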