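import Pool.Agent.N177.LE.Unif
import Pool.Agent.N177.LE.Defs

/-!
# Independence of `ℓ` of the Euler factors in large residue characteristic
-/

set_option autoImplicit false

open CategoryTheory Limits AlgebraicGeometry IsLocalRing Module Polynomial

namespace Pool.Agent.N177.LE

open Pool.Agent.N177.LP

section laurent

variable (k : Type) [Field k] [Finite k]

lemma laurent_p : (laurent k).p = ringChar k := by
  have h : CharP (laurent k).k (ringChar k) :=
    charP_of_injective_ringHom (f := (resEquiv k : k →+* (laurent k).k)) (resEquiv k).injective _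
  exact ringChar.eq_iff.2 h

lemma laurent_char : ringChar (laurent k).K ≠ 0 := by
  have h1 : CharP k (ringChar k) := inferInstance
  have h2 : CharP (PowerSeries k) (ringChar k) :=
    charP_of_injective_ringHom (PowerSeries.C_injective (R := k)) (ringChar k)
  have h3 : CharP (FractionRing (PowerSeries k)) (ringChar k) :=
    charP_of_injective_ringHom (IsFractionRing.injective (PowerSeries k)
      (FractionRing (PowerSeries k))) (ringChar k)
  have h4 : ringChar (FractionRing (PowerSeries k)) = ringChar k := ringChar.eq_iff.2 h3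
  change ringChar (FractionRing (PowerSeries k)) ≠ 0
  rw [h4]
  exact CharP.char_ne_zero_of_finite k _

end laurent

theorem main {T : EulerTheory} (h2 : T.EqualCharacteristic) (h3 : T.TameSpecialization)
    (h4 : Hironaka) {S X : Scheme.{0}} (s : S ⟶ Spec (.of ℤ)) (hs : LocallyOfFiniteType s)
    (hs' : QuasiCompact s) (f : X ⟶ S) (hf : Smooth f) (hf' : IsProper f) :
    ∃ N : ℕ, N ≠ 0 ∧ ∀ L : LocalField, ¬ L.p ∣ N → ∀ (x : Spec (.of L.K) ⟶ S) (i : ℕ),
      T.Independent L _ (pullback.snd f x) i := by
  obtain ⟨N, hN, hN'⟩ := unif h4 s hs hs'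
    (P := fun L x => ∀ i : ℕ, T.Independent L _ (pullback.snd f x) i) (by
      intro Λ _ m t ht φ
      obtain ⟨M, hM, hM'⟩ := h3 Λ m t ht (Localization.Away (∏ i, t i)) S X f φ hf hf'
      refine ⟨M, hM, fun L hp α α' hα i => ?_⟩
      have hα0 : ∀ i, α (t i) ≠ 0 := by
        have h4 : IsUnit (α' (algebraMap Λ _ (∏ i, t i))) :=
          (IsLocalization.Away.algebraMap_isUnit (∏ i, t i)).map α'
        rw [hα, map_prod, map_prod, isUnit_iff_ne_zero, Finset.prod_ne_zero_iff] at h4
        intro i h
        apply h4 i (Finset.mem_univ i)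
        rw [h, map_zero]
      obtain ⟨β, hβ1, hβ2, hβ3⟩ := exists_companion ht L α hα0
      let L' := laurent L.k
      have hβu : IsUnit (((algebraMap L'.O L'.K).comp β) (∏ i, t i)) := by
        rw [map_prod, isUnit_iff_ne_zero, Finset.prod_ne_zero_iff]
        intro i _ h
        exact hβ2 i ((map_eq_zero_iff _ (IsFractionRing.injective L'.O L'.K)).1 h)
      let β' : Localization.Away (∏ i, t i) →+* L'.K := IsLocalization.Away.lift (∏ i, t i) hβu
      have hβ' : ∀ a, β' (algebraMap Λ _ a) = algebraMap L'.O L'.K (β a) := fun a =>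
        DFunLike.congr_fun (IsLocalization.Away.lift_comp (∏ i, t i) hβu) a
      obtain ⟨P, hP⟩ := h2 L' _ (pullback.snd f (Spec.map (CommRingCat.ofHom β') ≫ φ)) i
        inferInstance inferInstance (laurent_char L.k)
      refine ⟨P, fun ℓ _ hℓp => ?_⟩
      rw [hM' ℓ L L' hℓp hp (resEquiv L.k) α β α' β' hα hβ' hβ1 hβ3 i]
      exact hP ℓ (by rwa [laurent_p]))
  refine ⟨N, hN, fun L hp x i => ?_⟩
  by_cases h0 : ringChar L.K = 0
  · have : CharP L.K 0 := h0 ▸ ringChar.charP L.K
    exact hN' L hp (CharP.charP_to_charZero L.K) x i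
  · exact h2 L _ (pullback.snd f x) i inferInstance inferInstance h0

end Pool.Agent.N177.LE
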