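import Pool.Agent.N177.LE.Main

/-!
# The fields of `p`-adic numbers
-/

set_option autoImplicit false

open IsLocalRing

namespace Pool.Agent.N177.LE

open Pool.Agent.N177.LP

instance (p : ℕ) [Fact p.Prime] : HenselianLocalRing ℤ_[p] where
  is_henselian f hf a h1 h2 := by
    have h : HenselianRing ℤ_[p] (maximalIdeal ℤ_[p]) := inferInstance
    exact h.is_henselian f hf a h1 (h2.map _)

/-- The local field `ℚ_p`. -/
noncomputable def padic (p : ℕ) [Fact p.Prime] : LocalField where
  O := ℤ_[p]
  K := ℚ_[p]
  finite := Finite.of_equiv _ (PadicInt.residueField (p := p)).symm.toEquiv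

lemma padic_p (p : ℕ) [Fact p.Prime] : (padic p).p = p := by
  have h : CharP (padic p).k p :=
    charP_of_injective_ringHom (f := ((PadicInt.residueField (p := p)).symm :
      ZMod p →+* ResidueField ℤ_[p])) (PadicInt.residueField (p := p)).symm.injective _
  exact ringChar.eq_iff.2 h

end Pool.Agent.N177.LE
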