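import Pool.Agent.N177.LP.Chart

/-!
# A uniformity principle for points with values in local fields
-/

set_option autoImplicit false

open CategoryTheory Limits AlgebraicGeometry IsLocalRing Module

namespace Pool.Agent.N177.LE

open Pool.Agent.N177.LP

/-- The property `P` of points of `S` holds in almost all residue characteristics for the points
which come from the complement of a divisor with normal crossings and extend to integral points. -/
def HoldsOnCharts {S : Scheme.{0}} (P : ∀ L : LocalField, (Spec (.of L.K) ⟶ S) → Prop) : Prop :=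
  ∀ (Λ : Type) [CommRing Λ] (m : ℕ) (t : Fin m → Λ), IsSNC t →
    ∀ φ : Spec (.of (Localization.Away (∏ i, t i))) ⟶ S, ∃ M : ℕ, M ≠ 0 ∧
      ∀ L : LocalField, ¬ L.p ∣ M → ∀ (α : Λ →+* L.O) (α' : Localization.Away (∏ i, t i) →+* L.K),
        (∀ a, α' (algebraMap _ _ a) = algebraMap L.O L.K (α a)) →
          P L (Spec.map (CommRingCat.ofHom α') ≫ φ)

theorem unif_affine (h4 : Hironaka) {S : Scheme.{0}}
    {P : ∀ L : LocalField, (Spec (.of L.K) ⟶ S) → Prop} (hP : HoldsOnCharts P)
    (A : Type) [CommRing A] [Algebra.FiniteType ℤ A] (φ : Spec (.of A) ⟶ S) :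
    ∃ N : ℕ, N ≠ 0 ∧ ∀ L : LocalField, ¬ L.p ∣ N → CharZero L.K → ∀ x : A →+* L.K,
      P L (Spec.map (CommRingCat.ofHom x) ≫ φ) := by
  classical
  have hnoeth : IsNoetherianRing A := Algebra.FiniteType.isNoetherianRing ℤ A
  have key : ∀ I : Ideal A, ∃ N : ℕ, N ≠ 0 ∧ ∀ L : LocalField, ¬ L.p ∣ N → CharZero L.K →
      ∀ (x : A →+* L.K), I ≤ RingHom.ker x → P L (Spec.map (CommRingCat.ofHom x) ≫ φ) := by
    intro I
    induction I using WellFoundedGT.induction with
    | _ I ih =>
      by_cases htop : I = ⊤
      · refine ⟨1, one_ne_zero, fun L hp h0 x hx => ?_⟩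
        have : (1 : A) ∈ RingHom.ker x := hx (htop ▸ Submodule.mem_top)
        rw [RingHom.mem_ker, map_one] at this
        exact absurd this one_ne_zero
      by_cases hI : I.IsPrime
      · by_cases hB : CharZero (A ⧸ I)
        · have hft : @Algebra.FiniteType ℤ (A ⧸ I) _ _ (Ring.toIntAlgebra _) :=
            Algebra.FiniteType.of_surjective (Ideal.Quotient.mk I).toIntAlgHom
              Ideal.Quotient.mk_surjective
          obtain ⟨g, N, hg, hN, S', s, j, hs, hj⟩ := h4 (A ⧸ I)
          obtain ⟨F, _, c, hc⟩ := exists_charts s j hs hj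
          obtain ⟨a, rfl⟩ := Ideal.Quotient.mk_surjective g
          have hJ : I < I ⊔ Ideal.span {a} := by
            refine lt_of_le_of_ne le_sup_left fun h => hg ?_
            rw [Ideal.Quotient.eq_zero_iff_mem, h]
            exact Ideal.mem_sup_right (Ideal.mem_span_singleton_self a)
          obtain ⟨N₁, hN₁, hN₁'⟩ := ih _ hJ
          let ψ : A →+* Localization.Away (Ideal.Quotient.mk I a) :=
            (algebraMap (A ⧸ I) _).comp (Ideal.Quotient.mk I)
          choose M hM hM' using fun n : F =>
            hP (c n).Λ (c n).m (c n).t (c n).snc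
              (Spec.map (CommRingCat.ofHom ((c n).φ.comp ψ)) ≫ φ)
          refine ⟨N * N₁ * ∏ n, M n, mul_ne_zero (mul_ne_zero hN hN₁)
            (Finset.prod_ne_zero_iff.2 fun n _ => hM n), fun L hp h0 x hx => ?_⟩
          have hpN : ¬ L.p ∣ N := fun h => hp ((h.mul_right _).mul_right _)
          have hpN₁ : ¬ L.p ∣ N₁ := fun h => hp ((h.mul_left _).mul_right _)
          have hpM : ∀ n, ¬ L.p ∣ M n := fun n h =>
            hp ((h.trans (Finset.dvd_prod_of_mem M (Finset.mem_univ n))).mul_left _)
          by_cases hxa : x a = 0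
          · refine hN₁' L hpN₁ h0 x (sup_le hx ?_)
            rw [Ideal.span_singleton_le_iff_mem, RingHom.mem_ker]
            exact hxa
          · let xB : (A ⧸ I) →+* L.K := Ideal.Quotient.lift I x fun b hb => hx hb
            have hxB : IsUnit (xB (Ideal.Quotient.mk I a)) := isUnit_iff_ne_zero.2 hxa
            let xg : Localization.Away (Ideal.Quotient.mk I a) →+* L.K :=
              IsLocalization.Away.lift (Ideal.Quotient.mk I a) hxB
            have hxg : xg.comp (algebraMap (A ⧸ I) _) = xB :=
              IsLocalization.Away.lift_comp (Ideal.Quotient.mk I a) hxB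
            obtain ⟨n, α, α', hα, hx'⟩ := hc L xg hpN
            have hx'' : x = α'.comp ((c n).φ.comp ψ) := by
              rw [← RingHom.comp_assoc, ← hx', ← RingHom.comp_assoc, hxg]
              rfl
            have hx3 : Spec.map (CommRingCat.ofHom x) ≫ φ = Spec.map (CommRingCat.ofHom α') ≫
                Spec.map (CommRingCat.ofHom ((c n).φ.comp ψ)) ≫ φ := by
              rw [hx'', CommRingCat.ofHom_comp _ α', Spec.map_comp, Category.assoc]
            rw [hx3]
            exact hM' n L (hpM n) α α' hα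
        · refine ⟨1, one_ne_zero, fun L hp h0 x hx => ?_⟩
          exfalso
          apply hB
          let xB : (A ⧸ I) →+* L.K := Ideal.Quotient.lift I x fun b hb => hx hb
          refine ⟨fun n n' h => ?_⟩
          have := congrArg xB h
          rw [map_natCast, map_natCast] at this
          exact Nat.cast_injective this
      · rw [Ideal.isPrime_iff] at hI
        push Not at hI
        obtain ⟨a, b, hab, ha, hb⟩ := hI htop
        have hJa : I < I ⊔ Ideal.span {a} := by
          refine lt_of_le_of_ne le_sup_left fun h => ha ?_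
          rw [h]
          exact Ideal.mem_sup_right (Ideal.mem_span_singleton_self a)
        have hJb : I < I ⊔ Ideal.span {b} := by
          refine lt_of_le_of_ne le_sup_left fun h => hb ?_
          rw [h]
          exact Ideal.mem_sup_right (Ideal.mem_span_singleton_self b)
        obtain ⟨N₁, hN₁, hN₁'⟩ := ih _ hJa
        obtain ⟨N₂, hN₂, hN₂'⟩ := ih _ hJb
        refine ⟨N₁ * N₂, mul_ne_zero hN₁ hN₂, fun L hp h0 x hx => ?_⟩
        have hxab : x a * x b = 0 := by
          rw [← map_mul]
          exact hx hab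
        rcases mul_eq_zero.1 hxab with h | h
        · refine hN₁' L (fun h => hp (h.mul_right _)) h0 x (sup_le hx ?_)
          rw [Ideal.span_singleton_le_iff_mem, RingHom.mem_ker]
          exact h
        · refine hN₂' L (fun h => hp (h.mul_left _)) h0 x (sup_le hx ?_)
          rw [Ideal.span_singleton_le_iff_mem, RingHom.mem_ker]
          exact h
  obtain ⟨N, hN, hN'⟩ := key ⊥
  exact ⟨N, hN, fun L hp h0 x => hN' L hp h0 x bot_le⟩

/-- **The uniformity principle.** -/
theorem unif (h4 : Hironaka) {S : Scheme.{0}} (s : S ⟶ Spec (.of ℤ))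
    (hs : LocallyOfFiniteType s) (hs' : QuasiCompact s)
    {P : ∀ L : LocalField, (Spec (.of L.K) ⟶ S) → Prop} (hP : HoldsOnCharts P) :
    ∃ N : ℕ, N ≠ 0 ∧ ∀ L : LocalField, ¬ L.p ∣ N → CharZero L.K →
      ∀ x : Spec (.of L.K) ⟶ S, P L x := by
  classical
  have hcs : CompactSpace S := QuasiCompact.compactSpace_of_compactSpace s
  have haff : ∀ z : S, ∃ (A : Type) (_ : CommRing A) (_ : Algebra.FiniteType ℤ A)
      (φ : Spec (.of A) ⟶ S), IsOpenImmersion φ ∧ z ∈ Set.range φ := by
    intro z
    obtain ⟨U, hU, hz, -⟩ := exists_isAffineOpen_mem_and_subset (X := S) (x := z) (U := ⊤) trivial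
    have h5 : LocallyOfFiniteType (hU.fromSpec ≫ s) := inferInstance
    rw [← Spec.map_preimage (hU.fromSpec ≫ s),
      HasRingHomProperty.Spec_iff (P := @LocallyOfFiniteType)] at h5
    refine ⟨Γ(S, U), inferInstance, ?_, hU.fromSpec, inferInstance, ?_⟩
    · have h6 : (Spec.preimage (hU.fromSpec ≫ s)).hom = algebraMap ℤ Γ(S, U) :=
        RingHom.ext_int _ _
      rw [h6] at h5
      exact (RingHom.finiteType_algebraMap).1 h5
    · rw [hU.range_fromSpec]
      exact hz
  choose A hA hA' φ hφ hz using haff
  obtain ⟨F, hF⟩ := isCompact_univ.elim_finite_subcover (fun z : S => Set.range (φ z))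
    (fun z => (φ z).isOpenEmbedding.isOpen_range)
    (fun z _ => Set.mem_iUnion.2 ⟨z, hz z⟩)
  choose N hN hN' using fun z => unif_affine h4 hP (A z) (φ z)
  refine ⟨∏ z ∈ F, N z, Finset.prod_ne_zero_iff.2 fun z _ => hN z, fun L hp hc0 x => ?_⟩
  let pt : Spec (CommRingCat.of L.K) := closedPoint L.K
  have h6 := hF (Set.mem_univ (x pt))
  rw [Set.mem_iUnion₂] at h6
  obtain ⟨z, hzF, hxz⟩ := h6
  have h7 : Set.range x ⊆ Set.range (φ z) := by
    rintro _ ⟨y, rfl⟩
    have : y = pt := Subsingleton.elim (α := PrimeSpectrum L.K) y pt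
    rw [this]
    exact hxz
  have h8 := IsOpenImmersion.lift_fac (φ z) x h7
  have h9 : x = Spec.map (CommRingCat.ofHom
      (Spec.preimage (IsOpenImmersion.lift (φ z) x h7)).hom) ≫ φ z := by
    rw [CommRingCat.ofHom_hom, Spec.map_preimage, h8]
  rw [h9]
  exact hN' z L (fun h => hp (h.trans (Finset.dvd_prod_of_mem N hzF))) hc0 _

end Pool.Agent.N177.LE
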